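import Mathlib

set_option autoImplicit false

namespace Pool.Agent.Results.MP_1706f7_co.Zero

open Finset Filter Topology

/-- the factor of length `n` starting at position `i` -/
def factor (x : ℕ → Bool) (i n : ℕ) : Fin n → Bool := fun j => x (i + j)

/-- the set of factors of length `n` -/
def Lang (x : ℕ → Bool) (n : ℕ) : Set (Fin n → Bool) := {v | ∃ i, v = factor x i n}

/-- number of ones -/
def ones {n : ℕ} (v : Fin n → Bool) : ℕ := (univ.filter fun j => v j = true).card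

def UnifRec (x : ℕ → Bool) : Prop :=
  ∀ n i, ∃ B, ∀ m, ∃ j, m ≤ j ∧ j ≤ m + B ∧ factor x j n = factor x i n

def Aperiodic (x : ℕ → Bool) : Prop := ¬ ∃ p N, 0 < p ∧ ∀ i, N ≤ i → x (i + p) = x i

def Sturmian (x : ℕ → Bool) : Prop := Aperiodic x ∧ ∀ n, (Lang x n).ncard = n + 1

/-- abelian closure -/
def AbCl (x : ℕ → Bool) : Set (ℕ → Bool) :=
  {y | ∀ n, ∀ v ∈ Lang y n, ∃ u ∈ Lang x n, ones v = ones u}

/-- blocks of length `n` occurring in some element of `X` -/
def Blocks (X : Set (ℕ → Bool)) (n : ℕ) : Set (Fin n → Bool) := {v | ∃ y ∈ X, v ∈ Lang y n}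

def cnt (y : ℕ → Bool) (n : ℕ) : ℤ := ∑ j ∈ range n, if y j = true then 1 else 0

lemma cnt_succ (y : ℕ → Bool) (n : ℕ) : cnt y (n + 1) = cnt y n + if y n = true then 1 else 0 :=
  sum_range_succ _ _

lemma ones_eq (y : ℕ → Bool) (i n : ℕ) : (ones (factor y i n) : ℤ) = cnt y (i + n) - cnt y i := by
  rw [cnt, sum_range_add, cnt, add_sub_cancel_left, ones, card_filter, ← Fin.sum_univ_eq_sum_range
    (fun j => if y (i + j) = true then (1 : ℤ) else 0)]
  simp [factor]

noncomputable def al : ℝ := √2 - 1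

lemma al_irr : Irrational al := by simpa [al] using irrational_sqrt_two.sub_natCast 1

lemma al_bd : 0.414 < al ∧ al < 0.415 := by
  unfold al
  constructor
  · rw [lt_sub_iff_add_lt]; exact Real.lt_sqrt_of_sq_lt (by norm_num)
  · rw [sub_lt_iff_lt_add, Real.sqrt_lt' (by norm_num)]; norm_num

noncomputable def th (i : ℕ) : ℝ := i * al + if i % 2 = 0 then 0 else 2 / 5

noncomputable def X (i : ℕ) : Bool := decide (⌊th (i + 1)⌋ - ⌊th i⌋ = 1)

lemma step (i : ℕ) : ⌊th (i + 1)⌋ - ⌊th i⌋ = 0 ∨ ⌊th (i + 1)⌋ - ⌊th i⌋ = 1 := by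
  have h : th i ≤ th (i + 1) ∧ th (i + 1) ≤ th i + 1 := by
    have := al_bd
    unfold th
    push_cast
    split_ifs <;> constructor <;> linarith [this.1, this.2]
  have h1 := Int.floor_le_floor h.1
  have h2 := Int.floor_le_floor h.2
  rw [Int.floor_add_one] at h2
  omega

lemma cnt_X (n : ℕ) : cnt X n = ⌊th n⌋ := by
  induction n with
  | zero => simp [cnt, th]
  | succ n ih =>
    rw [cnt_succ, ih]
    have := step n
    simp only [X, decide_eq_true_eq]
    split_ifs <;> omega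

lemma th_add (i k : ℕ) : th (i + 2 * k) = th i + 2 * k * al := by
  unfold th
  rw [show (i + 2 * k) % 2 = i % 2 by omega]
  push_cast; ring

lemma hit {α : ℝ} (hα : Irrational α) (b : ℝ) (hab : 0 < b) (h1 : b ≤ 1) :
    ∃ i : ℕ, 0 < Int.fract (i * α) ∧ Int.fract (i * α) < b := by
  have d : DenseRange fun n : ℕ => n • (α : AddCircle (1 : ℝ)) :=
    denseRange_zsmul_iff_nsmul.1 (AddCircle.denseRange_zsmul_coe_iff.2 (by simpa using hα))
  obtain ⟨i, y, ⟨y1, y2⟩, e⟩ := d.exists_mem_open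
    (QuotientAddGroup.isOpenMap_coe (Set.Ioo 0 b) isOpen_Ioo) ((Set.nonempty_Ioo.2 hab).image _)
  obtain ⟨m, hm⟩ := QuotientAddGroup.eq.1 (e.trans (AddCircle.coe_nsmul (1 : ℝ)).symm)
  simp only [zsmul_eq_mul, mul_one, nsmul_eq_mul] at hm
  have : Int.fract (i * α) = y := by
    rw [show i * α = m + y by linarith, Int.fract_intCast_add, Int.fract_eq_self]
    constructor <;> linarith
  exact ⟨i, by linarith, by linarith⟩

lemma synd {η : ℝ} (h : 0 < η) (h' : η ≤ 1) : ∃ B : ℕ, ∀ m : ℕ, ∃ k : ℕ, m ≤ k ∧ k ≤ m + B ∧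
    Int.fract (2 * k * al) < η := by
  obtain ⟨q, hq, h1⟩ : ∃ q : ℕ, 0 < Int.fract (2 * q * al) ∧ Int.fract (2 * q * al) < η := by
    obtain ⟨q, hq⟩ := hit (al_irr.natCast_mul (m := 2) (by norm_num)) η h h'
    exact ⟨q, by rwa [show 2 * q * al = q * ((2 : ℕ) * al) by push_cast; ring]⟩
  set e := Int.fract (2 * q * al) with he
  refine ⟨⌈1 / e⌉₊ * q, fun m => ?_⟩
  set f := Int.fract (2 * m * al) with hf
  have f0 : 0 ≤ f := Int.fract_nonneg _
  have f1 : f < 1 := Int.fract_lt_one _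
  have e1 : e < 1 := Int.fract_lt_one _
  obtain ⟨j, hj⟩ : ∃ j, j = ⌈(1 - f) / e⌉₊ := ⟨_, rfl⟩
  have j1 : (1 - f) / e ≤ j := hj ▸ Nat.le_ceil _
  have j2 : j < (1 - f) / e + 1 := hj ▸ Nat.ceil_lt_add_one (div_nonneg (by linarith) hq.le)
  rw [div_le_iff₀ hq] at j1
  rw [← sub_lt_iff_lt_add, lt_div_iff₀ hq] at j2
  refine ⟨m + j * q, by omega, Nat.add_le_add_left (Nat.mul_le_mul_right _ (hj ▸ Nat.ceil_le_ceil
    (div_le_div_of_nonneg_right (by linarith) hq.le))) _, ?_⟩
  have : Int.fract (2 * ((m + j * q : ℕ) : ℝ) * al) = f + j * e - 1 := by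
    rw [Int.fract_eq_iff]
    refine ⟨by linarith, by linarith, ⌊2 * m * al⌋ + j * ⌊2 * q * al⌋ + 1, ?_⟩
    rw [hf, he, Int.fract, Int.fract]; push_cast; ring
  rw [this]; linarith

lemma ur : UnifRec X := by
  intro n i
  obtain ⟨η, h0, h1, h⟩ : ∃ η : ℝ, 0 < η ∧ η ≤ 1 ∧ ∀ j ∈ range (n + 1),
      η ≤ 1 - Int.fract (th (i + j)) := by
    obtain ⟨j, -, hj⟩ := exists_max_image (range (n + 1)) (fun j => Int.fract (th (i + j)))
      (by simp)
    exact ⟨1 - Int.fract (th (i + j)), by linarith [Int.fract_lt_one (th (i + j))],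
      by linarith [Int.fract_nonneg (th (i + j))], fun k hk => by linarith [hj k hk]⟩
  obtain ⟨B, hB⟩ := synd h0 h1
  refine ⟨i + 2 * B + 1, fun m => ?_⟩
  obtain ⟨k, k1, k2, k3⟩ := hB ((m + 1) / 2)
  refine ⟨i + 2 * k, by omega, by omega, funext fun j => ?_⟩
  have e : ∀ j ∈ range (n + 1), ⌊th (i + 2 * k + j)⌋ = ⌊th (i + j)⌋ + ⌊2 * k * al⌋ := by
    intro j hj
    rw [add_right_comm, th_add, Int.floor_eq_iff]
    have := h j hj
    have := Int.fract_nonneg (th (i + j))
    have := Int.fract_nonneg (2 * k * al)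
    unfold Int.fract at *
    push_cast
    constructor <;> linarith
  simp only [factor, X, add_assoc _ (j : ℕ) 1]
  rw [e _ (by simp), e _ (by simp)]
  congr 2; ring

lemma aper : Aperiodic X := by
  rintro ⟨p, N, hp, h⟩
  have h1 : ∀ i, N ≤ i → cnt X (i + p) - cnt X i = cnt X (N + p) - cnt X N := by
    intro i hi
    induction i, hi using Nat.le_induction with
    | base => rfl
    | succ i hi ih => rw [add_right_comm, cnt_succ, cnt_succ, h i hi, ← ih]; ring
  have h2 : ∀ k : ℕ, cnt X (N + k * p) = cnt X N + k * (cnt X (N + p) - cnt X N) := by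
    intro k
    induction k with
    | zero => simp
    | succ k ih =>
      have := h1 (N + k * p) (by omega)
      rw [add_mul, one_mul, ← add_assoc]; push_cast; linarith
  set c := cnt X (N + p) - cnt X N
  have h3 : (p : ℝ) * al - c ≠ 0 := ((al_irr.natCast_mul hp.ne').sub_intCast c).ne_zero
  obtain ⟨k, hk⟩ := exists_nat_gt (1 / |p * al - c|)
  rw [div_lt_iff₀ (abs_pos.2 h3)] at hk
  have h4 := h2 (2 * k)
  rw [mul_assoc, cnt_X, cnt_X, th_add] at h4
  have a1 := Int.floor_le (th N + 2 * ((k * p : ℕ) : ℝ) * al)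
  have a2 := Int.lt_floor_add_one (th N + 2 * ((k * p : ℕ) : ℝ) * al)
  have a3 := Int.floor_le (th N)
  have a4 := Int.lt_floor_add_one (th N)
  rw [h4] at a1 a2
  push_cast at a1 a2
  cases abs_cases (p * al - c) <;> nlinarith

lemma notSt : ¬ Sturmian X := by
  rintro ⟨-, h⟩
  have v : ∀ (i : ℕ) (m : ℤ), (m : ℝ) ≤ i * 0.414 + (if i % 2 = 0 then 0 else 2 / 5) →
      i * 0.415 + (if i % 2 = 0 then 0 else 2 / 5) < (m : ℝ) + 1 → ⌊th i⌋ = m := by
    intro i m h1 h2
    have := al_bd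
    have : (0 : ℝ) ≤ i := by positivity
    rw [Int.floor_eq_iff, th]
    constructor <;> nlinarith
  have v0 := v 0 0 (by norm_num) (by norm_num)
  have v1 := v 1 0 (by norm_num) (by norm_num)
  have v2 := v 2 0 (by norm_num) (by norm_num)
  have v3 := v 3 1 (by norm_num) (by norm_num)
  have v4 := v 4 1 (by norm_num) (by norm_num)
  have v5 := v 5 2 (by norm_num) (by norm_num)
  have v8 := v 8 3 (by norm_num) (by norm_num)
  have v9 := v 9 4 (by norm_num) (by norm_num)
  have v10 := v 10 4 (by norm_num) (by norm_num)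
  have v11 := v 11 4 (by norm_num) (by norm_num)
  have v12 := v 12 4 (by norm_num) (by norm_num)
  have s : (({![false, false, true], ![false, true, false], ![true, false, true],
      ![true, false, false], ![false, false, false]} : Finset (Fin 3 → Bool)) : Set _) ⊆
      Lang X 3 := by
    intro w hw
    simp only [coe_insert, coe_singleton, Set.mem_insert_iff, Set.mem_singleton_iff] at hw
    rcases hw with rfl | rfl | rfl | rfl | rfl
    · exact ⟨0, by ext j; fin_cases j <;> simp [factor, X, *]⟩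
    · exact ⟨1, by ext j; fin_cases j <;> simp [factor, X, *]⟩
    · exact ⟨2, by ext j; fin_cases j <;> simp [factor, X, *]⟩
    · exact ⟨8, by ext j; fin_cases j <;> simp [factor, X, *]⟩
    · exact ⟨9, by ext j; fin_cases j <;> simp [factor, X, *]⟩
  have := Set.ncard_le_ncard s (Set.toFinite _)
  rw [h 3, Set.ncard_coe_finset] at this
  revert this; decide

lemma bal (a : ℕ → ℤ) (h : ∀ i k : ℕ, |(a (i + 2 * k) - a i : ℝ) - 2 * k * al| < 1) {N r : ℕ}
    (hr : r ≤ N) : ∃ j₀ ≤ N, ∀ j ≤ N, j % 2 = r % 2 →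
      a j - a r = ⌈((j : ℝ) - j₀) * al⌉ - ⌈((r : ℝ) - j₀) * al⌉ := by
  obtain ⟨j₀, h0, h1⟩ := exists_min_image ((range (N + 1)).filter (· % 2 = r % 2))
    (fun j => (a j : ℝ) - j * al) ⟨r, by simp; omega⟩
  simp only [mem_filter, mem_range] at h0 h1
  have e : ∀ j ≤ N, j % 2 = r % 2 → ⌈((j : ℝ) - j₀) * al⌉ = a j - a j₀ := by
    intro j hj hj2
    have h2 := h1 j ⟨by omega, hj2⟩
    rw [Int.ceil_eq_iff]
    push_cast
    refine ⟨?_, by linarith⟩
    rcases le_total j j₀ with e | e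
    · obtain ⟨k, rfl⟩ : ∃ k, j₀ = j + 2 * k := ⟨(j₀ - j) / 2, by omega⟩
      have := (abs_lt.1 (h j k)).1
      push_cast; linarith
    · obtain ⟨k, rfl⟩ : ∃ k, j = j₀ + 2 * k := ⟨(j - j₀) / 2, by omega⟩
      have := (abs_lt.1 (h j₀ k)).2
      push_cast; linarith
  exact ⟨j₀, by omega, fun j hj hj2 => by rw [e j hj hj2, e r hr rfl]; ring⟩

noncomputable def A (t : ℕ × ℕ × ℕ) (j : ℕ) : ℤ :=
  if j % 2 = 0 then ⌈((j : ℝ) - t.1) * al⌉ - ⌈(((0 : ℕ) : ℝ) - t.1) * al⌉
  else ⌈((j : ℝ) - t.2.1) * al⌉ - ⌈(((1 : ℕ) : ℝ) - t.2.1) * al⌉ + t.2.2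

lemma bound (n : ℕ) : (Blocks (AbCl X) n).ncard ≤ (n + 2) * ((n + 2) * 2) := by
  have s : Blocks (AbCl X) n ⊆ ((range (n + 2) ×ˢ range (n + 2) ×ˢ range 2).image
      fun t => fun j : Fin n => decide (A t (j + 1) - A t j = 1) : Finset _) := by
    rintro _ ⟨y, hy, i, rfl⟩
    have h : ∀ j k : ℕ, |(((cnt y (i + (j + 2 * k)) - cnt y i : ℤ) : ℝ) -
        (cnt y (i + j) - cnt y i : ℤ)) - 2 * k * al| < 1 := by
      intro j k
      obtain ⟨_, ⟨m, rfl⟩, e⟩ := hy (2 * k) _ ⟨i + j, rfl⟩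
      have e1 := ones_eq y (i + j) (2 * k)
      rw [e, ones_eq, cnt_X, cnt_X, th_add, add_assoc] at e1
      have e2 := congrArg (Int.cast : ℤ → ℝ) e1
      have a1 := Int.floor_le (th m + 2 * k * al)
      have a2 := Int.lt_floor_add_one (th m + 2 * k * al)
      have a3 := Int.floor_le (th m)
      have a4 := Int.lt_floor_add_one (th m)
      push_cast at *
      rw [abs_lt]; constructor <;> linarith
    obtain ⟨j₀, h0, e0⟩ := bal (fun j => cnt y (i + j) - cnt y i) h (N := n + 1) (r := 0)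
      (by omega)
    obtain ⟨j₁, h1, e1⟩ := bal (fun j => cnt y (i + j) - cnt y i) h (N := n + 1) (r := 1)
      (by omega)
    have e : ∀ j ≤ n + 1, A (j₀, j₁, if y i = true then 1 else 0) j = cnt y (i + j) - cnt y i := by
      intro j hj
      unfold A
      split_ifs with h2 h3
      · rw [← e0 j hj h2]; simp
      · rw [← e0 j hj h2]; simp
      · rw [← e1 j hj (by omega), cnt_succ]; simp [*]
      · rw [← e1 j hj (by omega), cnt_succ]; simp [*]
    simp only [coe_image, Set.mem_image, mem_coe, mem_product, mem_range]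
    refine ⟨(j₀, j₁, if y i = true then 1 else 0), ⟨Nat.lt_succ_of_le h0,
      Nat.lt_succ_of_le h1, by split_ifs <;> simp⟩,
      funext fun j => ?_⟩
    rw [e _ (by omega), e _ (by omega), ← add_assoc, cnt_succ, factor]
    cases y (i + j) <;> simp
  refine (Set.ncard_le_ncard s (Set.toFinite _)).trans ?_
  rw [Set.ncard_coe_finset]
  exact card_image_le.trans (by simp)

theorem result : ∃ x : ℕ → Bool, UnifRec x ∧ Aperiodic x ∧ ¬ Sturmian x ∧
    Tendsto (fun n : ℕ => Real.log (Blocks (AbCl x) n).ncard / n) atTop (𝓝 0) := by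
  refine ⟨X, ur, aper, notSt, ?_⟩
  have h := ((Real.tendsto_pow_log_div_mul_add_atTop 1 (-2) 1 one_ne_zero).comp
    (tendsto_atTop_add_const_right _ 2 tendsto_natCast_atTop_atTop)).const_mul 3
  rw [mul_zero] at h
  refine squeeze_zero (fun n => div_nonneg (Real.log_natCast_nonneg _) (by positivity))
    (fun n => ?_) h
  simp only [Function.comp, pow_one, one_mul, add_neg_cancel_right, ← mul_div_assoc]
  refine div_le_div_of_nonneg_right ?_ (by positivity)
  have h2 : (1 : ℝ) ≤ n + 2 := by linarith [(by positivity : (0 : ℝ) ≤ n)]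
  rcases Nat.eq_zero_or_pos (Blocks (AbCl X) n).ncard with e | e
  · rw [e]; simpa using Real.log_nonneg h2
  · rw [show (3 : ℝ) = (3 : ℕ) by norm_num, ← Real.log_pow]
    refine Real.log_le_log (by exact_mod_cast e) ?_
    have : ((Blocks (AbCl X) n).ncard : ℝ) ≤ (n + 2) * ((n + 2) * 2) := by exact_mod_cast bound n
    nlinarith [(by positivity : (0 : ℝ) ≤ n), (by positivity : (0 : ℝ) ≤ n * ((n + 2) * (n + 2)))]

end Pool.Agent.Results.MP_1706f7_co.Zero
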